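import Pool.Agent.Helper76.BallInvProof

set_option autoImplicit false
open MeasureTheory

namespace Pool.Agent.Results.MP_a59212_an.InvariantSubspaces

open BallInv

/-- Closed automorphism-invariant subspaces of `C(closed ball)`. Rotation-invariant probability
measures `σ` on `S` exist; for any of them each `f ∈ C(S)` has exactly one Poisson integral
`P[f] ∈ C(closed ball)`, and every closed `Aut(B)`-invariant subspace `Y` of `C(closed ball)` is
the direct sum of `Y ∩ C₀(B)` and `P[X]` for one of the six spaces `X`. -/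
theorem result (n : ℕ) (hn : 0 < n) :
    (∃ σ : Measure (Sphere n), IsSigma σ) ∧
    ∀ σ : Measure (Sphere n), IsSigma σ →
      (∀ f : C(Sphere n, ℂ), ∃! h : C(ClosedBall n, ℂ), IsPoisson σ f h) ∧
      ∀ Y : Submodule ℂ C(ClosedBall n, ℂ), IsClosed (Y : Set C(ClosedBall n, ℂ)) →
        MInvariant Y →
        ∃ X ∈ six n,
          (∀ h : C(ClosedBall n, ℂ), h ∈ Y ↔ ∃ g ∈ Y, ∃ k ∈ PX σ X, IsC0 g ∧ h = g + k) ∧
          ∀ k ∈ PX σ X, IsC0 k → k = 0 :=
  main n hn

end Pool.Agent.Results.MP_a59212_an.InvariantSubspaces
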